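import Mathlib

/-! # Elementary number theory of random tuples (for the degrees of curves on complete intersections) -/

set_option autoImplicit false

namespace Pool.Agent.Q162.CDG

open Finset

/-- the number of the entries divisible by `p` -/
def Xp {r : ℕ} (p : ℕ) (d : Fin r → ℕ) : ℕ := (univ.filter fun i => p ∣ d i).card

theorem Xp_le {r : ℕ} (p : ℕ) (hp : p.Prime) (d : Fin r → ℕ) (hd : ∀ i, 1 ≤ d i) :
    Xp p d ≤ (∏ i, d i).factorization p := by
  have h1 : (∏ i, d i).factorization p = ∑ i, (d i).factorization p := by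
    rw [Nat.factorization_prod fun i _ => (Nat.pos_iff_ne_zero.1 (hd i))]
    simp
  rw [h1, Xp, card_filter]
  refine sum_le_sum fun i _ => ?_
  split_ifs with h
  · exact (hp.dvd_iff_one_le_factorization (Nat.pos_iff_ne_zero.1 (hd i))).1 h
  · exact Nat.zero_le _

/-- the weight -/
noncomputable def wt (p x : ℕ) : ℝ := if p ∣ x then 1 / 2 else 1

theorem wt_prod {r : ℕ} (p : ℕ) (d : Fin r → ℕ) : ∏ i, wt p (d i) = (1 / 2 : ℝ) ^ Xp p d := by
  unfold wt Xp
  rw [prod_ite]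
  simp

theorem sum_wt (p D : ℕ) : ∑ x ∈ Icc 1 D, wt p x = D - ((D / p : ℕ) : ℝ) / 2 := by
  have h1 : ∀ x, wt p x = 1 - (if p ∣ x then (1 / 2 : ℝ) else 0) := by
    intro x
    unfold wt
    split_ifs <;> norm_num
  rw [sum_congr rfl fun x _ => h1 x, sum_sub_distrib]
  rw [← sum_filter, sum_const, sum_const, Nat.card_Icc]
  have h2 : ((Icc 1 D).filter fun x => p ∣ x).card = D / p := by
    have := Nat.Ioc_filter_dvd_card_eq_div D p
    rw [← this]
    rfl
  rw [h2]
  simp only [nsmul_eq_mul, add_tsub_cancel_right]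
  ring

theorem count (r p D : ℕ) (hp : 1 ≤ p) (hpD : p ≤ D) :
    (((Fintype.piFinset fun _ : Fin r => Icc 1 D).filter fun d => 8 * p * Xp p d < r).card : ℝ) ≤
      (D : ℝ) ^ r * Real.exp (-(r / (8 * p) : ℝ)) := by
  have hp0 : (0 : ℝ) < p := by exact_mod_cast hp
  have hD0 : (0 : ℝ) < D := by exact_mod_cast lt_of_lt_of_le hp hpD
  have h1 : ∑ d ∈ Fintype.piFinset fun _ : Fin r => Icc 1 D, ∏ i, wt p (d i) =
      (D - ((D / p : ℕ) : ℝ) / 2) ^ r := by
    rw [← prod_univ_sum (fun _ : Fin r => Icc 1 D) (fun _ x => wt p x)]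
    rw [prod_const, sum_wt, card_univ, Fintype.card_fin]
  have h2 : (D - ((D / p : ℕ) : ℝ) / 2) ≤ D * Real.exp (-(1 / (4 * p) : ℝ)) := by
    have h3 : (D : ℝ) / (2 * p) ≤ ((D / p : ℕ) : ℝ) := by
      have h4 : 1 ≤ D / p := (Nat.one_le_div_iff hp).2 hpD
      have h5 : D < p * (D / p + 1) := Nat.lt_mul_div_succ D hp
      have h6 : (D : ℝ) ≤ p * (((D / p : ℕ) : ℝ) + 1) := by exact_mod_cast h5.le
      have h7 : (1 : ℝ) ≤ ((D / p : ℕ) : ℝ) := by exact_mod_cast h4
      rw [div_le_iff₀ (by positivity)]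
      nlinarith
    have h8 := Real.add_one_le_exp (-(1 / (4 * p) : ℝ))
    have h9 : (D : ℝ) / (2 * p) / 2 = D * (1 / (4 * p)) := by
      field_simp
      ring
    calc (D - ((D / p : ℕ) : ℝ) / 2) ≤ D - (D : ℝ) / (2 * p) / 2 := by linarith
      _ = D * (-(1 / (4 * p) : ℝ) + 1) := by rw [h9]; ring
      _ ≤ _ := mul_le_mul_of_nonneg_left h8 hD0.le
  have h3 : 0 ≤ (D - ((D / p : ℕ) : ℝ) / 2) := by
    have : ((D / p : ℕ) : ℝ) ≤ D := by exact_mod_cast Nat.div_le_self D p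
    linarith
  have h4 : (D - ((D / p : ℕ) : ℝ) / 2) ^ r ≤ (D : ℝ) ^ r * Real.exp (-(r / (4 * p) : ℝ)) := by
    refine (pow_le_pow_left₀ h3 h2 r).trans (le_of_eq ?_)
    rw [mul_pow, ← Real.exp_nat_mul]
    congr 2
    ring
  have h5 : ∀ d ∈ (Fintype.piFinset fun _ : Fin r => Icc 1 D).filter
      fun d => 8 * p * Xp p d < r, Real.exp (-(r / (8 * p) : ℝ)) ≤ ∏ i, wt p (d i) := by
    intro d hd
    have h6 : 8 * p * Xp p d < r := (mem_filter.1 hd).2
    have h7 : (Xp p d : ℝ) ≤ r / (8 * p) := by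
      rw [le_div_iff₀ (by positivity)]
      have : ((8 * p * Xp p d : ℕ) : ℝ) ≤ r := by exact_mod_cast h6.le
      push_cast at this
      linarith
    rw [wt_prod]
    have h8 : (1 / 2 : ℝ) ^ Xp p d = Real.exp (-(Xp p d * Real.log 2)) := by
      rw [← mul_neg, Real.exp_nat_mul, Real.exp_neg, Real.exp_log (by norm_num)]
      norm_num
    rw [h8]
    refine Real.exp_le_exp.2 (neg_le_neg ?_)
    have h9 : Real.log 2 ≤ 1 := by
      have := Real.log_two_lt_d9
      linarith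
    have h10 : (0 : ℝ) ≤ Xp p d := Nat.cast_nonneg _
    nlinarith
  have h6 : (((Fintype.piFinset fun _ : Fin r => Icc 1 D).filter fun d => 8 * p * Xp p d < r).card : ℝ) *
      Real.exp (-(r / (8 * p) : ℝ)) ≤ (D : ℝ) ^ r * Real.exp (-(r / (4 * p) : ℝ)) := by
    calc (((Fintype.piFinset fun _ : Fin r => Icc 1 D).filter fun d => 8 * p * Xp p d < r).card : ℝ) *
          Real.exp (-(r / (8 * p) : ℝ))
        = ∑ _d ∈ (Fintype.piFinset fun _ : Fin r => Icc 1 D).filter
            fun d => 8 * p * Xp p d < r, Real.exp (-(r / (8 * p) : ℝ)) := by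
          rw [sum_const, nsmul_eq_mul]
      _ ≤ ∑ d ∈ (Fintype.piFinset fun _ : Fin r => Icc 1 D).filter
            fun d => 8 * p * Xp p d < r, ∏ i, wt p (d i) := sum_le_sum h5
      _ ≤ ∑ d ∈ Fintype.piFinset fun _ : Fin r => Icc 1 D, ∏ i, wt p (d i) := by
          refine sum_le_sum_of_subset_of_nonneg (filter_subset _ _) fun d _ _ => ?_
          refine prod_nonneg fun i _ => ?_
          unfold wt
          split_ifs <;> norm_num
      _ ≤ _ := by rw [h1]; exact h4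
  have h7 : (D : ℝ) ^ r * Real.exp (-(r / (4 * p) : ℝ)) =
      ((D : ℝ) ^ r * Real.exp (-(r / (8 * p) : ℝ))) * Real.exp (-(r / (8 * p) : ℝ)) := by
    rw [mul_assoc, ← Real.exp_add]
    congr 2
    field_simp
    ring
  rw [h7] at h6
  exact le_of_mul_le_mul_right h6 (Real.exp_pos _)

/-- good tuples -/
def Good (c : ℝ) {r : ℕ} (d : Fin r → ℕ) : Prop :=
  ∀ p : ℕ, p.Prime → p * Real.log r ≤ c * r → r ≤ 8 * p * Xp p d

open Classical in
theorem count_good (A r D : ℕ) (c : ℝ) (hcA : c ≤ 1 / (8 * (A + 1))) (hr : 3 ≤ r)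
    (hD : r ≤ D) :
    (((Fintype.piFinset fun _ : Fin r => Icc 1 D).filter fun d => ¬ Good c d).card : ℝ) ≤
      (D : ℝ) ^ r / (r : ℝ) ^ A := by
  have hr0 : (0 : ℝ) < r := by positivity
  have hlog : 1 ≤ Real.log r := by
    rw [Real.le_log_iff_exp_le hr0]
    have h1 := Real.exp_one_lt_d9
    have h2 : (3 : ℝ) ≤ r := by exact_mod_cast hr
    linarith
  set T := (range (r + 1)).filter fun p : ℕ => p.Prime ∧ p * Real.log r ≤ c * r with hT
  have hc1 : c ≤ 1 := by
    refine hcA.trans ?_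
    rw [div_le_one (by positivity)]
    have : (0 : ℝ) ≤ A := Nat.cast_nonneg _
    linarith
  have hsub : ((Fintype.piFinset fun _ : Fin r => Icc 1 D).filter fun d => ¬ Good c d) ⊆
      T.biUnion fun p => (Fintype.piFinset fun _ : Fin r => Icc 1 D).filter
        fun d => 8 * p * Xp p d < r := by
    intro d hd
    rw [mem_filter] at hd
    obtain ⟨hd1, hd2⟩ := hd
    unfold Good at hd2
    push Not at hd2
    obtain ⟨p, hp, hpr, hpX⟩ := hd2
    refine mem_biUnion.2 ⟨p, ?_, mem_filter.2 ⟨hd1, hpX⟩⟩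
    rw [hT, mem_filter, mem_range]
    refine ⟨?_, hp, hpr⟩
    have h1 : (p : ℝ) ≤ r := by
      have h2 : (p : ℝ) * 1 ≤ p * Real.log r := mul_le_mul_of_nonneg_left hlog (Nat.cast_nonneg _)
      have h3 : c * r ≤ 1 * r := mul_le_mul_of_nonneg_right hc1 hr0.le
      linarith
    have h2 : p ≤ r := by exact_mod_cast h1
    omega
  have hcardT : (T.card : ℝ) ≤ r := by
    have h1 : T ⊆ Icc 1 r := by
      intro p hp
      rw [hT, mem_filter, mem_range] at hp
      rw [mem_Icc]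
      exact ⟨hp.2.1.one_le, by omega⟩
    have h2 := card_le_card h1
    rw [Nat.card_Icc, add_tsub_cancel_right] at h2
    exact_mod_cast h2
  have hbound : ∀ p ∈ T, ((((Fintype.piFinset fun _ : Fin r => Icc 1 D).filter
      fun d => 8 * p * Xp p d < r).card : ℕ) : ℝ) ≤ (D : ℝ) ^ r / (r : ℝ) ^ (A + 1) := by
    intro p hp
    rw [hT, mem_filter, mem_range] at hp
    obtain ⟨hp1, hp2, hp3⟩ := hp
    refine (count r p D hp2.one_le (by omega)).trans ?_
    rw [div_eq_mul_inv ((D : ℝ) ^ r)]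
    refine mul_le_mul_of_nonneg_left ?_ (by positivity)
    have hp0 : (0 : ℝ) < p := by exact_mod_cast hp2.pos
    have h1 : ((r : ℝ) ^ (A + 1))⁻¹ = Real.exp (-((A + 1) * Real.log r)) := by
      rw [Real.exp_neg, mul_comm, ← Real.rpow_def_of_pos hr0]
      congr 1
      rw [← Real.rpow_natCast]
      push_cast
      rfl
    rw [h1]
    refine Real.exp_le_exp.2 (neg_le_neg ?_)
    rw [le_div_iff₀ (by positivity)]
    have h2 : (A + 1 : ℝ) * (8 * c) ≤ 1 := by
      rw [le_div_iff₀ (by positivity)] at hcA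
      linarith
    have h3 : (A + 1 : ℝ) * Real.log r * (8 * p) = (A + 1) * 8 * (p * Real.log r) := by ring
    rw [h3]
    have h4 : (A + 1 : ℝ) * 8 * (p * Real.log r) ≤ (A + 1) * 8 * (c * r) :=
      mul_le_mul_of_nonneg_left hp3 (by positivity)
    nlinarith
  calc (((Fintype.piFinset fun _ : Fin r => Icc 1 D).filter fun d => ¬ Good c d).card : ℝ)
      ≤ ((T.biUnion fun p => (Fintype.piFinset fun _ : Fin r => Icc 1 D).filter
        fun d => 8 * p * Xp p d < r).card : ℝ) := by exact_mod_cast card_le_card hsub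
    _ ≤ ((∑ p ∈ T, ((Fintype.piFinset fun _ : Fin r => Icc 1 D).filter
        fun d => 8 * p * Xp p d < r).card : ℕ) : ℝ) := by exact_mod_cast card_biUnion_le
    _ = ∑ p ∈ T, ((((Fintype.piFinset fun _ : Fin r => Icc 1 D).filter
        fun d => 8 * p * Xp p d < r).card : ℕ) : ℝ) := by push_cast; rfl
    _ ≤ ∑ _p ∈ T, (D : ℝ) ^ r / (r : ℝ) ^ (A + 1) := sum_le_sum hbound
    _ = T.card * ((D : ℝ) ^ r / (r : ℝ) ^ (A + 1)) := by rw [sum_const, nsmul_eq_mul]
    _ ≤ r * ((D : ℝ) ^ r / (r : ℝ) ^ (A + 1)) := mul_le_mul_of_nonneg_right hcardT (by positivity)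
    _ = (D : ℝ) ^ r / (r : ℝ) ^ A := by
        rw [pow_succ]
        field_simp

end Pool.Agent.Q162.CDG
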