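import Pool.Agent.Q162.CDG.Defs
import Pool.Agent.Q162.CDG.Num

/-! # Divisors which satisfy the criterion for the degrees of curves on complete intersections -/

set_option autoImplicit false

namespace Pool.Agent.Q162.CDG

open Finset Nat

/-- A sufficient condition for the criterion. -/
def Crit (n P Q : ℕ) : Prop :=
  ∀ p : ℕ, p.Prime → p ∣ Q → (2 * n - 1) * Q.factorization p + 4 * n ^ 3 ≤ P.factorization p

theorem crit_dvd {n P Q : ℕ} (hn : 0 < n) (hP : P ≠ 0) (h : Crit n P Q) (p : ℕ) (hp : p.Prime)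
    (hpQ : p ∣ Q) : p ^ ((n + (n - 1) / (p - 1)) * Q.factorization p +
      Nat.log p n * ((n + (n - 1) / (p - 1)) ^ 2 - 1)) ∣ P := by
  rw [hp.pow_dvd_iff_le_factorization hP]
  refine le_trans ?_ (h p hp hpQ)
  have h1 : (n - 1) / (p - 1) ≤ n - 1 := Nat.div_le_self _ _
  have h2 : n + (n - 1) / (p - 1) ≤ 2 * n - 1 := by omega
  have h3 : Nat.log p n ≤ n := Nat.log_le_self p n
  have h4 : (n + (n - 1) / (p - 1)) ^ 2 - 1 ≤ 4 * n ^ 2 := by
    have h5 : (n + (n - 1) / (p - 1)) ^ 2 ≤ (2 * n) ^ 2 := Nat.pow_le_pow_left (by omega) 2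
    have h6 : (2 * n) ^ 2 = 4 * n ^ 2 := by ring
    omega
  have h7 : n * (4 * n ^ 2) = 4 * n ^ 3 := by ring
  rw [← h7]
  exact Nat.add_le_add (Nat.mul_le_mul_right _ h2) (Nat.mul_le_mul h3 h4)

/-- the root of `P` -/
theorem exists_root (n P : ℕ) (hn : 0 < n) (hP : P ≠ 0) :
    ∃ N : ℕ, N ∣ P ∧ (∀ D : ℕ, (∀ p : ℕ, p.Prime → p ∣ P → p ≤ D) →
      P ≤ 4 ^ ((4 * n ^ 3 + 2 * n) * D) * N ^ (2 * n - 1)) ∧ N ≠ 0 ∧ Crit n P N := by
  set E := 4 * n ^ 3 + 2 * n with hE
  have h0 : (0 - 4 * n ^ 3) / (2 * n - 1) = 0 := by simp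
  set f : ℕ →₀ ℕ := P.factorization.mapRange (fun v => (v - 4 * n ^ 3) / (2 * n - 1)) h0 with hf
  have hfp : ∀ p, f p = (P.factorization p - 4 * n ^ 3) / (2 * n - 1) := fun p => by
    rw [hf, Finsupp.mapRange_apply]
  have hsupp : f.support ⊆ P.factorization.support := Finsupp.support_mapRange
  have hprime : ∀ p ∈ f.support, p.Prime := fun p hp =>
    Nat.prime_of_mem_primeFactors (by simpa using hsupp hp)
  set N := f.prod (fun p k => p ^ k) with hN
  have hfac : N.factorization = f := Nat.prod_pow_factorization_eq_self hprime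
  have hN0 : N ≠ 0 := by
    rw [hN, Finsupp.prod, Finset.prod_ne_zero_iff]
    intro p hp
    exact pow_ne_zero _ (hprime p hp).ne_zero
  have hm : 1 ≤ 2 * n - 1 := by omega
  refine ⟨N, ?_, ?_, hN0, ?_⟩
  · rw [← Nat.factorization_le_iff_dvd hN0 hP, hfac]
    intro p
    rw [hfp]
    exact (Nat.div_le_self _ _).trans (Nat.sub_le _ _)
  · intro D hD
    have h1 : P = ∏ p ∈ P.primeFactors, p ^ P.factorization p := by
      conv_lhs => rw [← Nat.prod_factorization_pow_eq_self hP]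
      rfl
    have h2 : N = ∏ p ∈ P.primeFactors, p ^ f p := by
      rw [hN, Finsupp.prod_of_support_subset f (s := P.primeFactors) (by simpa using hsupp)]
      intro p _
      exact pow_zero p
    have h3 : ∀ p ∈ P.primeFactors, p ^ P.factorization p ≤ p ^ E * (p ^ f p) ^ (2 * n - 1) := by
      intro p hp
      have hpp : p.Prime := Nat.prime_of_mem_primeFactors hp
      rw [← pow_mul, ← pow_add]
      refine Nat.pow_le_pow_right hpp.pos ?_
      rw [hfp]
      have h4 := Nat.lt_mul_div_succ (P.factorization p - 4 * n ^ 3) (show 0 < 2 * n - 1 by omega)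
      have h5 : (2 * n - 1) * ((P.factorization p - 4 * n ^ 3) / (2 * n - 1) + 1) =
          (P.factorization p - 4 * n ^ 3) / (2 * n - 1) * (2 * n - 1) + (2 * n - 1) := by ring
      rw [h5] at h4
      omega
    have h6 : (∏ p ∈ P.primeFactors, p) ≤ 4 ^ D := by
      refine le_trans ?_ (primorial_le_four_pow D)
      unfold primorial
      refine Finset.prod_le_prod_of_subset_of_one_le' ?_ ?_
      · intro p hp
        have hpp : p.Prime := Nat.prime_of_mem_primeFactors hp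
        rw [Finset.mem_filter, Finset.mem_range]
        exact ⟨Nat.lt_succ_of_le (hD p hpp (Nat.dvd_of_mem_primeFactors hp)), hpp⟩
      · intro p hp _
        exact (Finset.mem_filter.1 hp).2.one_le
    calc P = ∏ p ∈ P.primeFactors, p ^ P.factorization p := h1
      _ ≤ ∏ p ∈ P.primeFactors, (p ^ E * (p ^ f p) ^ (2 * n - 1)) :=
          Finset.prod_le_prod (fun _ _ => Nat.zero_le _) h3
      _ = (∏ p ∈ P.primeFactors, p) ^ E * (∏ p ∈ P.primeFactors, p ^ f p) ^ (2 * n - 1) := by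
          rw [Finset.prod_mul_distrib, Finset.prod_pow, Finset.prod_pow]
      _ ≤ (4 ^ D) ^ E * N ^ (2 * n - 1) := by
          rw [← h2]
          exact Nat.mul_le_mul_right _ (Nat.pow_le_pow_left h6 E)
      _ = 4 ^ (E * D) * N ^ (2 * n - 1) := by rw [← pow_mul, mul_comm D E]
  · intro p hp hpN
    rw [hfac]
    have h1 : 1 ≤ f p := by
      rw [← hfac]
      exact (hp.dvd_iff_one_le_factorization hN0).1 hpN
    rw [hfp] at h1 ⊢
    have h2 : (2 * n - 1) * ((P.factorization p - 4 * n ^ 3) / (2 * n - 1)) ≤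
        P.factorization p - 4 * n ^ 3 := Nat.mul_div_le _ _
    have h3 : 1 * (2 * n - 1) ≤ P.factorization p - 4 * n ^ 3 :=
      (Nat.le_div_iff_mul_le (by omega)).1 h1
    omega

theorem crit_of_good (n r : ℕ) (c : ℝ) (hn : 0 < n) (hc : c ≤ 1 / (64 * n)) (hc0 : 0 < c)
    (hr : (n : ℝ) ^ 2 ≤ Real.log r) (hr1 : 1 ≤ r) (d : Fin r → ℕ) (hd : ∀ i, 1 ≤ d i)
    (hg : Good c d) (Q : ℕ) (hQ : Q ∈ FacPow c r) : Q ≠ 0 ∧ Crit n (∏ i, d i) Q := by
  obtain ⟨K, b, rfl, hK, hb⟩ := hQ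
  refine ⟨pow_ne_zero _ (Nat.factorial_ne_zero K), ?_⟩
  intro p hp hpQ
  have hpK : p ≤ K := (hp.dvd_factorial).1 (hp.dvd_of_dvd_pow hpQ)
  have hp0 : (0 : ℝ) < p := by exact_mod_cast hp.pos
  have hn0 : (0 : ℝ) < n := by exact_mod_cast hn
  have hn1 : (1 : ℝ) ≤ n := by exact_mod_cast hn
  have hr0 : (0 : ℝ) < r := by exact_mod_cast hr1
  have hlog : 0 < Real.log r := lt_of_lt_of_le (by positivity) hr
  have hpr : p * Real.log r ≤ c * r := by
    refine le_trans (mul_le_mul_of_nonneg_right ?_ hlog.le) hK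
    exact_mod_cast hpK
  have h1 := hg p hp hpr
  have h2 := Xp_le p hp d hd
  have h3 : ((K !) ^ b).factorization p = b * (K !).factorization p := by
    rw [Nat.factorization_pow]
    rfl
  have h4 : (K !).factorization p ≤ K / (p - 1) := Nat.factorization_factorial_le_div_pred hp K
  have h5 : ((b * (K !).factorization p : ℕ) : ℝ) ≤ 2 * (c * r) / p := by
    have hp1 : (1 : ℝ) ≤ ((p - 1 : ℕ) : ℝ) := by
      have := hp.two_le
      have h : 1 ≤ p - 1 := by omega
      exact_mod_cast h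
    have hp2 : (p : ℝ) ≤ 2 * ((p - 1 : ℕ) : ℝ) := by
      have := hp.two_le
      have h : p ≤ 2 * (p - 1) := by omega
      exact_mod_cast h
    have h6 : (((K !).factorization p : ℕ) : ℝ) ≤ K / ((p - 1 : ℕ) : ℝ) :=
      (by exact_mod_cast h4 : (((K !).factorization p : ℕ) : ℝ) ≤ ((K / (p - 1) : ℕ) : ℝ)).trans
        Nat.cast_div_le
    have h7 : (K : ℝ) / ((p - 1 : ℕ) : ℝ) ≤ 2 * K / p := by
      rw [div_le_div_iff₀ (by linarith) hp0]
      have : (0 : ℝ) ≤ K := Nat.cast_nonneg _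
      nlinarith
    push_cast
    calc (b : ℝ) * ((K !).factorization p : ℝ) ≤ b * (2 * K / p) :=
          mul_le_mul_of_nonneg_left (h6.trans h7) (Nat.cast_nonneg _)
      _ = 2 * (b * K) / p := by ring
      _ ≤ 2 * (c * r) / p := by
          refine div_le_div_of_nonneg_right ?_ hp0.le
          linarith
  rw [h3]
  refine le_trans ?_ h2
  have hcn : 64 * n * c ≤ 1 := by
    rw [le_div_iff₀ (by positivity)] at hc
    linarith
  have h8 : ((2 * n - 1 : ℕ) : ℝ) ≤ 2 * n := by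
    have h : 2 * n - 1 ≤ 2 * n := Nat.sub_le _ _
    exact_mod_cast h
  have h9 : (r : ℝ) ≤ 8 * p * Xp p d := by exact_mod_cast h1
  have h10 : (((2 * n - 1) * (b * (K !).factorization p) + 4 * n ^ 3 : ℕ) : ℝ) ≤ (Xp p d : ℝ) := by
    have h11 : ((2 * n - 1 : ℕ) : ℝ) * ((b * (K !).factorization p : ℕ) : ℝ) ≤
        2 * n * (2 * (c * r) / p) :=
      mul_le_mul h8 h5 (Nat.cast_nonneg _) (by positivity)
    have h12 : 2 * n * (2 * (c * r) / p) ≤ r / (16 * p) := by
      rw [le_div_iff₀ (by positivity)]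
      have : 2 * (n : ℝ) * (2 * (c * r) / p) * (16 * p) = (64 * n * c) * r := by
        field_simp
        ring
      rw [this]
      nlinarith
    have h13 : 4 * (n : ℝ) ^ 3 ≤ r / (16 * p) := by
      rw [le_div_iff₀ (by positivity)]
      have h14 : (p : ℝ) * n ^ 2 ≤ c * r := le_trans (mul_le_mul_of_nonneg_left hr hp0.le) hpr
      have h15 : 4 * (n : ℝ) ^ 3 * (16 * p) = 64 * n * (p * n ^ 2) := by ring
      rw [h15]
      calc 64 * (n : ℝ) * (p * n ^ 2) ≤ 64 * n * (c * r) :=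
            mul_le_mul_of_nonneg_left h14 (by positivity)
        _ = (64 * n * c) * r := by ring
        _ ≤ 1 * r := mul_le_mul_of_nonneg_right hcn hr0.le
        _ = r := one_mul _
    have h16 : (r : ℝ) / (16 * p) + r / (16 * p) ≤ Xp p d := by
      have h17 : (r : ℝ) / (16 * p) + r / (16 * p) = r / (8 * p) := by
        field_simp
        ring
      rw [h17, div_le_iff₀ (by positivity)]
      linarith
    rw [Nat.cast_add, Nat.cast_mul]
    push_cast at h11 ⊢
    linarith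
  exact_mod_cast h10

/-- There are large elements. -/
theorem exists_large (c : ℝ) (hc : 0 < c) : ∃ R : ℕ, ∀ r ≥ R, ∃ Q ∈ FacPow c r,
    (r : ℝ) ^ (c / 4 * r) ≤ Q := by
  have h1 := (isLittleO_log_rpow_atTop (show (0 : ℝ) < 1 / 2 by norm_num)).bound
    (show (0 : ℝ) < c / (2 * Real.exp 1) by positivity)
  obtain ⟨R0, hR0⟩ := Filter.eventually_atTop.1 h1
  refine ⟨max 3 (Nat.ceil R0), fun r hr => ?_⟩
  have hr3 : 3 ≤ r := le_trans (le_max_left _ _) hr
  have hrR : R0 ≤ r := (Nat.le_ceil R0).trans (by exact_mod_cast le_trans (le_max_right _ _) hr)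
  have hr0 : (0 : ℝ) < r := by positivity
  have hr1 : (1 : ℝ) ≤ r := by exact_mod_cast (by omega : 1 ≤ r)
  have hlog : 1 ≤ Real.log r := by
    rw [Real.le_log_iff_exp_le hr0]
    have h1 := Real.exp_one_lt_d9
    have h2 : (3 : ℝ) ≤ r := by exact_mod_cast hr3
    linarith
  have h2 := hR0 r hrR
  rw [Real.norm_of_nonneg (by linarith), Real.norm_of_nonneg (by positivity)] at h2
  set s : ℝ := (r : ℝ) ^ (1 / 2 : ℝ) with hs
  have hs0 : 0 < s := by positivity
  have hs1 : 1 ≤ s := Real.one_le_rpow hr1 (by norm_num)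
  have hss : s * s = r := by
    rw [hs, ← Real.rpow_add hr0]
    norm_num
  have he : 1 ≤ Real.exp 1 := by
    have := Real.add_one_le_exp (1 : ℝ)
    linarith
  -- `x = c r / log r ≥ 2 e s`
  set x : ℝ := c * r / Real.log r with hx
  have hx2 : 2 * Real.exp 1 * s ≤ x := by
    rw [hx, le_div_iff₀ (by linarith)]
    calc 2 * Real.exp 1 * s * Real.log r ≤ 2 * Real.exp 1 * s * (c / (2 * Real.exp 1) * s) :=
          mul_le_mul_of_nonneg_left h2 (by positivity)
      _ = c * (s * s) := by field_simp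
      _ = c * r := by rw [hss]
  have hx1 : 1 ≤ x := by nlinarith
  set K := ⌊x⌋₊ with hK
  have hKx : (K : ℝ) ≤ x := Nat.floor_le (by linarith)
  have hK1 : 1 ≤ K := Nat.le_floor (by exact_mod_cast hx1)
  have hK1' : (1 : ℝ) ≤ K := by exact_mod_cast hK1
  have hK2 : x < K + 1 := Nat.lt_floor_add_one x
  have hK3 : Real.exp 1 * s ≤ K := by nlinarith
  have hKr : K * Real.log r ≤ c * r := by
    rw [hx, le_div_iff₀ (by linarith)] at hKx
    exact hKx
  set y : ℝ := c * r / K with hy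
  have hKcr : (K : ℝ) ≤ c * r := by
    have : (K : ℝ) * 1 ≤ K * Real.log r := mul_le_mul_of_nonneg_left hlog (by linarith)
    linarith
  have hy1 : 1 ≤ y := by
    rw [hy, le_div_iff₀ (by linarith)]
    linarith
  set b := ⌊y⌋₊ with hb
  have hby : (b : ℝ) ≤ y := Nat.floor_le (by linarith)
  have hb1 : 1 ≤ b := Nat.le_floor (by exact_mod_cast hy1)
  have hb1' : (1 : ℝ) ≤ b := by exact_mod_cast hb1
  have hb2 : y < b + 1 := Nat.lt_floor_add_one y
  have hbK : (b : ℝ) * K ≤ c * r := by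
    rw [hy, le_div_iff₀ (by linarith)] at hby
    exact hby
  have hbK2 : c * r / 2 ≤ (b : ℝ) * K := by
    have h3 : y ≤ 2 * b := by linarith
    rw [hy, div_le_iff₀ (by linarith)] at h3
    linarith
  refine ⟨(K !) ^ b, ⟨K, b, rfl, hKr, hbK⟩, ?_⟩
  have h4 : s ^ K ≤ (K ! : ℝ) := by
    have h5 := Real.pow_div_factorial_le_exp (K : ℝ) (by linarith) K
    have h6 : (0 : ℝ) < (K ! : ℝ) := by exact_mod_cast Nat.factorial_pos K
    rw [div_le_iff₀ h6] at h5
    have h7 : (Real.exp 1 * s) ^ K ≤ (K : ℝ) ^ K := pow_le_pow_left₀ (by positivity) hK3 K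
    rw [mul_pow, ← Real.exp_nat_mul, mul_one] at h7
    have h8 : Real.exp (K : ℝ) * s ^ K ≤ Real.exp (K : ℝ) * (K ! : ℝ) := h7.trans h5
    exact le_of_mul_le_mul_left h8 (Real.exp_pos _)
  push_cast
  calc (r : ℝ) ^ (c / 4 * r) ≤ (r : ℝ) ^ ((1 / 2 : ℝ) * (K * b : ℕ)) := by
        refine Real.rpow_le_rpow_of_exponent_le hr1 ?_
        push_cast
        linarith
    _ = (s ^ K) ^ b := by
        rw [Real.rpow_mul hr0.le, ← hs, Real.rpow_natCast, pow_mul]
    _ ≤ (K ! : ℝ) ^ b := pow_le_pow_left₀ (by positivity) h4 b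

end Pool.Agent.Q162.CDG
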