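import Mathlib

/-! # Divisibility of the degrees of all curves on a very general complete intersection -/

set_option autoImplicit false

namespace Pool.Agent.Q162.CDG

/-- `I` is the homogeneous ideal of an irreducible curve in `P^(m-1)`: a homogeneous prime ideal with
`dim ℂ[x_1, …, x_m] / I = 2`. -/
def IsCurve {m : ℕ} (I : Ideal (MvPolynomial (Fin m) ℂ)) : Prop :=
  (∀ p ∈ I, ∀ k : ℕ, MvPolynomial.homogeneousComponent k p ∈ I) ∧ I.IsPrime ∧
    ringKrullDim (MvPolynomial (Fin m) ℂ ⧸ I) = 2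

/-- The Hilbert function of `I`. -/
noncomputable def hilb {m : ℕ} (I : Ideal (MvPolynomial (Fin m) ℂ)) (k : ℕ) : ℕ :=
  Module.finrank ℂ (Submodule.map (Ideal.Quotient.mkₐ ℂ I).toLinearMap
    (MvPolynomial.homogeneousSubmodule (Fin m) ℂ k))

/-- `Q` divides the degree of the curve with the ideal `I` (the degree of a curve is the eventual
value of the difference of its Hilbert function). -/
def DvdDeg {m : ℕ} (Q : ℕ) (I : Ideal (MvPolynomial (Fin m) ℂ)) : Prop :=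
  ∃ K : ℕ, ∀ k : ℕ, K ≤ k → (Q : ℤ) ∣ (hilb I (k + 1) : ℤ) - (hilb I k : ℤ)

/-- `P` holds for the very general forms `f_1, …, f_r` of degrees `d_1, …, d_r` in `m` variables: off
countably many proper closed subsets, the zero sets of the polynomials `bad j ≠ 0` in the
coefficients of the forms. -/
def VeryGeneral (m r : ℕ) (d : Fin r → ℕ) (P : (Fin r → MvPolynomial (Fin m) ℂ) → Prop) : Prop :=
  ∃ bad : ℕ → MvPolynomial (Σ i : Fin r, {μ : Fin m →₀ ℕ // μ.degree = d i}) ℂ,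
    (∀ j, bad j ≠ 0) ∧
    ∀ f : Fin r → MvPolynomial (Fin m) ℂ,
      (∀ i, f i ∈ MvPolynomial.homogeneousSubmodule (Fin m) ℂ (d i)) →
      (∀ j, MvPolynomial.eval (fun x => MvPolynomial.coeff x.2.1 (f x.1)) (bad j) ≠ 0) → P f

/-- On a very general complete intersection of degrees `d_1, …, d_r` in `P^(n+r)` over `ℂ` the degree
of every irreducible curve is divisible by every element of `S`. -/
def DivBy (n r : ℕ) (d : Fin r → ℕ) (S : Set ℕ) : Prop :=
  VeryGeneral (n + r + 1) r d fun f =>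
    ∀ I : Ideal (MvPolynomial (Fin (n + r + 1)) ℂ), IsCurve I → (∀ i, f i ∈ I) →
      ∀ Q ∈ S, DvdDeg Q I

/-- The powers `(K!)^b` with `K log r ≤ c r` and `b K ≤ c r`. -/
def FacPow (c : ℝ) (r : ℕ) : Set ℕ :=
  {Q | ∃ K b : ℕ, Q = K.factorial ^ b ∧ K * Real.log r ≤ c * r ∧ b * K ≤ c * r}

/-- The constant `1 / (64 n (A + 1))`. -/
noncomputable def cst (n A : ℕ) : ℝ := 1 / (64 * n * (A + 1))

open Classical in
/-- The tuples of `r` degrees in `[1, D]` for which not every element of `S` divides the degree of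
every curve. -/
noncomputable def exceptions (n r D : ℕ) (S : Set ℕ) : Finset (Fin r → ℕ) :=
  (Fintype.piFinset fun _ : Fin r => Finset.Icc 1 D).filter fun d => ¬ DivBy n r d S

/-- All tuples of degrees: with `E = 4 n ^ 3 + 2 n` there is a divisor `N` of `d_1 ⋯ d_r` which
divides the degree of every curve, with `d_1 ⋯ d_r ≤ 4 ^ (E D) N ^ (2 n - 1)` for all `D ≥ max d_i`,
and `d_1 ⋯ d_r ≤ N ^ (4 n - 2)` if `2 ≤ d_i` and `4 E d_i ≤ r` for all `i`. -/
def AllTuples (n : ℕ) : Prop :=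
  ∀ (r : ℕ) (d : Fin r → ℕ), (∀ i, 0 < d i) →
    ∃ N : ℕ, N ∣ ∏ i, d i ∧ DivBy n r d {N} ∧
      (∀ D, (∀ i, d i ≤ D) → ∏ i, d i ≤ 4 ^ ((4 * n ^ 3 + 2 * n) * D) * N ^ (2 * n - 1)) ∧
      ((∀ i, 2 ≤ d i ∧ 4 * (4 * n ^ 3 + 2 * n) * d i ≤ r) → ∏ i, d i ≤ N ^ (4 * n - 2))

/-- Most tuples of degrees: for every `A` there is `R` such that for all `r ≥ R` and `D ≥ r` and for
all but at most `D ^ r / r ^ A` of the tuples in `[1, D]` the degree of every curve is divisible by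
every `(K!) ^ b` with `K log r ≤ c r` and `b K ≤ c r`, `c = 1 / (64 n (A + 1))`; one of these
numbers is at least `r ^ (c r / 4)`. -/
def MostTuples (n : ℕ) : Prop :=
  ∀ A : ℕ, ∃ R : ℕ, ∀ r ≥ R,
    (∀ D ≥ r, ((exceptions n r D (FacPow (cst n A) r)).card : ℝ) ≤ (D : ℝ) ^ r / (r : ℝ) ^ A) ∧
    ∃ Q ∈ FacPow (cst n A) r, (r : ℝ) ^ (cst n A / 4 * r) ≤ Q

end Pool.Agent.Q162.CDG
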