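import Pool.Agent.Q162.CDG.Arith
import Pool.Agent.Z894.SP.Fin

/-! # Typical complete intersections and complete intersections of large codimension -/

set_option autoImplicit false

namespace Pool.Agent.Q162.CDG

open Finset

theorem divBy_of_crit (n r : ℕ) (hn : 0 < n) (d : Fin r → ℕ) (hd : ∀ i, 0 < d i) (S : Set ℕ)
    (hS : ∀ Q ∈ S, Q ≠ 0 ∧ Crit n (∏ i, d i) Q) : DivBy n r d S := by
  obtain ⟨bad, hbad, h⟩ := Pool.Agent.Z894.SP.final n r hn d
  refine ⟨bad, hbad, fun f hf hfb I hI hfI Q hQ => ?_⟩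
  have hP : ∏ i, d i ≠ 0 := Finset.prod_ne_zero_iff.2 fun i _ => (hd i).ne'
  exact h f hf hfb I hI.1 hI.2.1 hI.2.2 hfI Q (Nat.pos_of_ne_zero (hS Q hQ).1)
    fun p hp hpQ => crit_dvd hn hP (hS Q hQ).2 p hp hpQ

theorem part_one (n : ℕ) (hn : 0 < n) : AllTuples n := by
  intro r d hd
  have hP : ∏ i, d i ≠ 0 := Finset.prod_ne_zero_iff.2 fun i _ => (hd i).ne'
  obtain ⟨N, hN, hND, hN0, hcrit⟩ := exists_root n (∏ i, d i) hn hP
  have hD : ∀ D, (∀ i, d i ≤ D) →
      ∏ i, d i ≤ 4 ^ ((4 * n ^ 3 + 2 * n) * D) * N ^ (2 * n - 1) := by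
    intro D hD
    refine hND D fun p hp hpP => ?_
    obtain ⟨i, -, hi⟩ := (hp.prime.dvd_finsetProd_iff _).1 hpP
    exact (Nat.le_of_dvd (hd i) hi).trans (hD i)
  refine ⟨N, hN, divBy_of_crit n r hn d hd {N} ?_, hD, ?_⟩
  · rintro Q rfl
    exact ⟨hN0, hcrit⟩
  · intro h2
    set E := 4 * n ^ 3 + 2 * n with hE
    have hE0 : 0 < 4 * E := by positivity
    have h3 : ∀ i, d i ≤ r / (4 * E) := fun i => by
      rw [Nat.le_div_iff_mul_le hE0, mul_comm]
      exact (h2 i).2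
    have h4 := hD _ h3
    have h5 : 4 ^ (E * (r / (4 * E))) * 4 ^ (E * (r / (4 * E))) ≤ ∏ i, d i := by
      have h6 : 2 ^ r ≤ ∏ i, d i := by
        calc 2 ^ r = ∏ _i : Fin r, 2 := by simp
          _ ≤ ∏ i, d i := Finset.prod_le_prod (fun _ _ => Nat.zero_le _) fun i _ => (h2 i).1
      refine le_trans ?_ h6
      have h7 : 4 ^ (E * (r / (4 * E))) * 4 ^ (E * (r / (4 * E))) =
          2 ^ (4 * E * (r / (4 * E))) := by
        rw [← pow_add, show (4 : ℕ) = 2 ^ 2 by norm_num, ← pow_mul]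
        congr 1
        ring
      rw [h7]
      exact Nat.pow_le_pow_right (by norm_num) (Nat.mul_div_le r (4 * E))
    have h8 : (∏ i, d i) * (∏ i, d i) ≤ (∏ i, d i) * N ^ (4 * n - 2) := by
      calc (∏ i, d i) * (∏ i, d i)
          ≤ (4 ^ (E * (r / (4 * E))) * N ^ (2 * n - 1)) *
            (4 ^ (E * (r / (4 * E))) * N ^ (2 * n - 1)) := Nat.mul_le_mul h4 h4
        _ = (4 ^ (E * (r / (4 * E))) * 4 ^ (E * (r / (4 * E)))) * N ^ (4 * n - 2) := by
            have h9 : 4 * n - 2 = (2 * n - 1) + (2 * n - 1) := by omega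
            rw [h9, pow_add]
            ring
        _ ≤ (∏ i, d i) * N ^ (4 * n - 2) := Nat.mul_le_mul_right _ h5
    exact Nat.le_of_mul_le_mul_left h8 (Nat.pos_of_ne_zero hP)

open Classical in
theorem part_two (n : ℕ) (hn : 0 < n) : MostTuples n := by
  intro A
  have hn0 : (0 : ℝ) < n := by exact_mod_cast hn
  have hn1 : (1 : ℝ) ≤ n := by exact_mod_cast hn
  have hA0 : (0 : ℝ) ≤ A := Nat.cast_nonneg _
  have hc0 : 0 < cst n A := by
    unfold cst
    positivity
  have hc1 : cst n A ≤ 1 / (64 * n) := by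
    unfold cst
    refine one_div_le_one_div_of_le (by positivity) ?_
    nlinarith
  have hc2 : cst n A ≤ 1 / (8 * (A + 1)) := by
    unfold cst
    refine one_div_le_one_div_of_le (by positivity) ?_
    nlinarith
  obtain ⟨R1, hR1⟩ := exists_large _ hc0
  refine ⟨max (max 3 R1) ⌈Real.exp ((n : ℝ) ^ 2)⌉₊, fun r hr => ⟨fun D hD => ?_, ?_⟩⟩
  · have hr3 : 3 ≤ r := le_trans (le_trans (le_max_left _ _) (le_max_left _ _)) hr
    have hr0 : (0 : ℝ) < r := by positivity
    have hlog : (n : ℝ) ^ 2 ≤ Real.log r := by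
      rw [Real.le_log_iff_exp_le hr0]
      exact (Nat.le_ceil _).trans (by exact_mod_cast le_trans (le_max_right _ _) hr)
    refine le_trans ?_ (count_good A r D _ hc2 hr3 hD)
    have hsub : exceptions n r D (FacPow (cst n A) r) ⊆
        ((Fintype.piFinset fun _ : Fin r => Finset.Icc 1 D).filter
        fun d => ¬ Good (cst n A) d) := by
      intro d hd
      unfold exceptions at hd
      rw [mem_filter] at hd ⊢
      refine ⟨hd.1, fun hg => hd.2 ?_⟩
      have hd1 : ∀ i, 1 ≤ d i := fun i => (mem_Icc.1 (Fintype.mem_piFinset.1 hd.1 i)).1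
      exact divBy_of_crit n r hn d hd1 _ fun Q hQ =>
        crit_of_good n r _ hn hc1 hc0 hlog (by omega) d hd1 hg Q hQ
    exact_mod_cast card_le_card hsub
  · exact hR1 r (le_trans (le_trans (le_max_right _ _) (le_max_left _ _)) hr)

end Pool.Agent.Q162.CDG
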